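import Pool.Agent.Helper97.SZ.Goals

set_option autoImplicit false

open Set Filter Topology Metric
open scoped ContDiff

namespace Pool.Agent.Helper55.SZ

open Pool.Agent.Helper91.SY Pool.Agent.Helper97.SZ

theorem dd_scaled {E : Type} [NormedAddCommGroup E] [NormedSpace ℝ E]
    (β : E → E →L[ℝ] ℝ) (hβ : ContDiff ℝ ∞ β) (c : E) (m : ℝ) (hm : m ≠ 0) (x : E) :
    dd (fun y => m • β (m⁻¹ • (y - c))) x = dd β (m⁻¹ • (x - c)) := by
  have hd : DifferentiableAt ℝ β (m⁻¹ • (x - c)) := hβ.contDiffAt.differentiableAt (by simp)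
  have h1 : HasFDerivAt (fun y : E => m⁻¹ • (y - c))
      (m⁻¹ • ContinuousLinearMap.id ℝ E) x :=
    ((hasFDerivAt_id x).sub_const c).const_smul m⁻¹
  have h2 : HasFDerivAt (fun y => β (m⁻¹ • (y - c)))
      ((fderiv ℝ β (m⁻¹ • (x - c))).comp (m⁻¹ • ContinuousLinearMap.id ℝ E)) x :=
    HasFDerivAt.comp x hd.hasFDerivAt h1
  have h3 := h2.const_smul m
  have h4 : fderiv ℝ (fun y => m • β (m⁻¹ • (y - c))) x = fderiv ℝ β (m⁻¹ • (x - c)) := by
    have h5 : fderiv ℝ (fun y => m • β (m⁻¹ • (y - c))) x =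
        m • (fderiv ℝ β (m⁻¹ • (x - c))).comp (m⁻¹ • ContinuousLinearMap.id ℝ E) := h3.fderiv
    rw [h5]
    ext v
    simp [hm]
  unfold dd
  rw [h4]

theorem fd_gen {E F : Type} [NormedAddCommGroup E] [NormedSpace ℝ E]
    [NormedAddCommGroup F] [NormedSpace ℝ F] (B : E → F) (B0 : F) (x : E) :
    fderiv ℝ (fun x => B x - B0) x = fderiv ℝ B x := fderiv_sub_const B0

theorem closed_sub {E : Type} [NormedAddCommGroup E] [NormedSpace ℝ E]
    (B : E → E →L[ℝ] E →L[ℝ] ℝ) (B0 : E →L[ℝ] E →L[ℝ] ℝ)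
    (hB : ∀ x u v w, fderiv ℝ B x u v w - fderiv ℝ B x v u w + fderiv ℝ B x w u v = 0)
    (x u v w : E) :
    fderiv ℝ (fun x => B x - B0) x u v w - fderiv ℝ (fun x => B x - B0) x v u w
      + fderiv ℝ (fun x => B x - B0) x w u v = 0 := by
  have h : fderiv ℝ (fun x => B x - B0) x = fderiv ℝ B x := fd_gen B B0 x
  rw [h]
  exact hB x u v w

theorem move (hMO : StmtMOSER) (hPO : StmtPOIN) : StmtMOVE := by
  intro n hn B Θ B0 R c μ K hR hB hFar hΘ hc hμ hμpos hK hKin hΘK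
  -- the closed compactly supported form
  obtain ⟨x0, hx0⟩ : ∃ x : V n, R ≤ ‖x‖ := by
    have : Nonempty (Fin n) := ⟨⟨0, by omega⟩⟩
    exact (NormedSpace.exists_lt_norm ℝ (V n) R).imp fun _ h => h.le
  have hB0alt : ∀ u, B0 u u = 0 := by
    intro u
    rw [← hFar x0 hx0]
    exact hB.alt x0 u
  obtain ⟨β, hβ, hβ0, hβd⟩ := hPO n hn (fun x => B x - B0) R hR (hB.smooth.sub contDiff_const)
    (fun x u => by
      simp only [sub_apply]
      rw [hB.alt, hB0alt, sub_zero])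
    (closed_sub B B0 hB.closed)
    (fun x hx => by
      have h1 : B x = B0 := hFar x hx
      have h2 : B x - B0 = 0 := sub_eq_zero.mpr h1
      exact h2)
  -- time reparametrisation
  have hτ : ContDiff ℝ ∞ Real.smoothTransition := Real.smoothTransition.contDiff
  have hτI : ∀ t, Real.smoothTransition t ∈ Icc (0 : ℝ) 1 := fun t =>
    ⟨Real.smoothTransition.nonneg t, Real.smoothTransition.le_one t⟩
  have hτ0 : Real.smoothTransition 0 = 0 := Real.smoothTransition.zero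
  have hτ1 : Real.smoothTransition 1 = 1 := Real.smoothTransition.one
  set m : ℝ → ℝ := fun t => μ (Real.smoothTransition t) with hm
  set d : ℝ → V n := fun t => c (Real.smoothTransition t) with hd
  have hmpos : ∀ t, 0 < m t := fun t => hμpos _ (hτI t)
  have hmne : ∀ t, m t ≠ 0 := fun t => (hmpos t).ne'
  have hmC : ContDiff ℝ ∞ m := hμ.comp hτ
  have hdC : ContDiff ℝ ∞ d := hc.comp hτ
  set γ : ℝ → V n → V n →L[ℝ] ℝ := fun t x => m t • β ((m t)⁻¹ • (x - d t)) with hγ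
  have hγC : ContDiff ℝ ∞ (fun p : ℝ × V n => γ p.1 p.2) := by
    have h1 : ContDiff ℝ ∞ (fun p : ℝ × V n => m p.1) := hmC.comp contDiff_fst
    have h2 : ContDiff ℝ ∞ (fun p : ℝ × V n => (m p.1)⁻¹) := h1.inv (fun p => hmne p.1)
    have h3 : ContDiff ℝ ∞ (fun p : ℝ × V n => p.2 - d p.1) :=
      contDiff_snd.sub (hdC.comp contDiff_fst)
    exact h1.smul (hβ.comp (h2.smul h3))
  have hddγ : ∀ t x, dd (γ t) x = B ((m t)⁻¹ • (x - d t)) - B0 := by
    intro t x
    rw [hγ]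
    rw [dd_scaled β hβ (d t) (m t) (hmne t) x, hβd]
  have hnorm : ∀ t (x : V n), ‖(m t)⁻¹ • (x - d t)‖ = (m t)⁻¹ * ‖x - d t‖ := by
    intro t x
    rw [norm_smul, Real.norm_of_nonneg (inv_nonneg.mpr (hmpos t).le)]
  have hin : ∀ t (x : V n), ‖(m t)⁻¹ • (x - d t)‖ ≤ R → x ∈ K := by
    intro t x h
    rw [hnorm, inv_mul_le_iff₀ (hmpos t)] at h
    exact hKin _ (hτI t) x h
  have hγ0 : ∀ t (x : V n), x ∉ K → γ t x = 0 := by
    intro t x hx
    have h1 : R ≤ ‖(m t)⁻¹ • (x - d t)‖ := by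
      by_contra h
      exact hx (hin t x (not_le.mp h).le)
    simp only [hγ, hβ0 _ h1, smul_zero]
  have key := hMO (V n) Θ γ K hΘ.smooth hΘ.alt hΘ.closed hγC hK
    (fun t _ x hx => by rw [hγ0 t x hx, hγ0 0 x hx])
    (fun t _ x u hu => by
      simp only [hddγ] at hu
      by_cases h : ‖(m t)⁻¹ • (x - d t)‖ ≤ R
      · refine hB.nondeg ((m t)⁻¹ • (x - d t)) u (fun v => ?_)
        have h1 := hu v
        rw [hΘK x (hin t x h)] at h1
        simp only [sub_apply] at h1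
        linarith
      · refine hΘ.nondeg x u (fun v => ?_)
        have h1 := hu v
        have h2 : B ((m t)⁻¹ • (x - d t)) - B0 = 0 := sub_eq_zero.mpr (hFar _ (not_le.mp h).le)
        rw [h2] at h1
        simpa using h1)
  have e0 : (fun x => Θ x + dd (γ 0) x) = ins B0 B Θ (c 0) (μ 0) := by
    funext x
    rw [hddγ]
    simp only [hm, hd, hτ0, ins]
  have e1 : (fun x => Θ x + dd (γ 1) x) = ins B0 B Θ (c 1) (μ 1) := by
    funext x
    rw [hddγ]
    simp only [hm, hd, hτ1, ins]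
  rw [e0, e1] at key
  exact key

end Pool.Agent.Helper55.SZ
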